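import Mathlib

/-!
# The biased sequence game: Player 1 on `{0,1,2}`, Player 2 on `{0,1}`

Player 1 avoids all squares of nonsingleton blocks, and may even choose his moves in advance:
he plays the letters of an infinite square-free word `y` over `{0,1,2}` in which no three
consecutive letters lie in `{0,1}` (equivalently, `010` and `101` do not occur; such words were
studied by Thue). The word `y` is the image under two morphisms of the fixed point of a
substitution on five letters. Its square-freeness is proved by descent: a near-repetition with a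
forbidden pair of mismatches at its ends comes from a shorter one of the same kind.
-/

namespace Pool.Agent.Results.MP_fa571f_co.BiasedGame

/-! ### Morphisms with a marker letter at the start of each image -/

/-- Starting position of the `n`-th image. -/
def Mk (L : Fin 5 → List (Fin 5)) (X : ℕ → Fin 5) : ℕ → ℕ
  | 0 => 0
  | n + 1 => Mk L X n + (L (X n)).length

/-- `Y` is the image of the infinite word `X` under the morphism `L`. -/
def IsImg (L : Fin 5 → List (Fin 5)) (m : Fin 5) (X Y : ℕ → Fin 5) : Prop :=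
  ∀ n i, i < (L (X n)).length → Y (Mk L X n + i) = (L (X n)).getD i m

/-- Each image has length at least two, starts with the marker `m` and has no other `m`. -/
structure Good (L : Fin 5 → List (Fin 5)) (m : Fin 5) : Prop where
  len : ∀ c, 2 ≤ (L c).length
  m0 : ∀ c, (L c).getD 0 m = m
  m1 : ∀ c i, 0 < i → i < (L c).length → (L c).getD i m ≠ m
  inj : ∀ c c', L c = L c' → c = c'

section
variable {L : Fin 5 → List (Fin 5)} {m : Fin 5} {X Y : ℕ → Fin 5}

lemma Mk_succ (n : ℕ) : Mk L X (n + 1) = Mk L X n + (L (X n)).length := rfl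

lemma Mk_add (hg : Good L m) (n k : ℕ) : Mk L X n + 2 * k ≤ Mk L X (n + k) := by
  induction k with
  | zero => simp
  | succ k ih =>
    have := hg.len (X (n + k))
    rw [← Nat.add_assoc, Mk_succ]
    omega

lemma Mk_le (hg : Good L m) {n k : ℕ} (h : n ≤ k) :
    Mk L X n + 2 * (k - n) ≤ Mk L X k := by
  have := Mk_add (X := X) hg n (k - n)
  rwa [Nat.add_sub_cancel' h] at this

lemma Mk_lt_of (hg : Good L m) {n k : ℕ} (h : Mk L X n < Mk L X k) : n < k := by
  by_contra hc
  have := Mk_le (X := X) hg (not_lt.mp hc)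
  omega

lemma exists_idx (hg : Good L m) (X : ℕ → Fin 5) (j : ℕ) :
    ∃ n, Mk L X n ≤ j ∧ j < Mk L X (n + 1) := by
  induction j with
  | zero =>
    refine ⟨0, le_refl _, ?_⟩
    have := hg.len (X 0)
    simp only [Mk]
    omega
  | succ j ih =>
    obtain ⟨n, h1, h2⟩ := ih
    by_cases h : j + 1 < Mk L X (n + 1)
    · exact ⟨n, by omega, h⟩
    · refine ⟨n + 1, by omega, ?_⟩
      have := hg.len (X (n + 1))
      rw [Mk_succ (n + 1)]
      omega

lemma img_start (hg : Good L m) (h : IsImg L m X Y) (n : ℕ) : Y (Mk L X n) = m := by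
  have h1 := h n 0 (by have := hg.len (X n); omega)
  rw [Nat.add_zero, hg.m0] at h1
  exact h1

lemma img_le (hg : Good L m) (h : IsImg L m X Y) {n i : ℕ} (hi : i ≤ (L (X n)).length) :
    Y (Mk L X n + i) = (L (X n)).getD i m := by
  rcases Nat.lt_or_ge i (L (X n)).length with h1 | h1
  · exact h n i h1
  · have : i = (L (X n)).length := le_antisymm hi h1
    subst this
    rw [← Mk_succ, img_start hg h]
    simp

lemma img_ne (hg : Good L m) (h : IsImg L m X Y) {n j : ℕ} (h1 : Mk L X n < j)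
    (h2 : j < Mk L X (n + 1)) : Y j ≠ m := by
  rw [Mk_succ] at h2
  have h3 := h n (j - Mk L X n) (by omega)
  rw [Nat.add_sub_cancel' h1.le] at h3
  rw [h3]
  exact hg.m1 _ _ (by omega) (by omega)

lemma img_mark (hg : Good L m) (h : IsImg L m X Y) {j : ℕ} (hj : Y j = m) :
    ∃ n, Mk L X n = j := by
  obtain ⟨n, h1, h2⟩ := exists_idx hg X j
  rcases Nat.eq_or_lt_of_le h1 with h3 | h3
  · exact ⟨n, h3⟩
  · exact absurd hj (img_ne hg h h3 h2)

/-- The descent step: a near-repetition of period `T` in `Y` comes from a near-repetition of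
smaller period in `X`. -/
lemma descent (hg : Good L m) (h : IsImg L m X Y) {p q T e : ℕ} (he : e ≤ 1)
    (hq : q + e = p + T)
    (hrep : ∀ i, p < i → i < q → Y i = Y (i + T))
    (hmark : ∃ n, p < Mk L X n ∧ Mk L X n < q) :
    ∃ p' q' T' e' v1 v2, e' ≤ 1 ∧ p' < q' ∧ q' + e' = p' + T' ∧ T' < T ∧
      (∀ i, p' < i → i < q' → X i = X (i + T')) ∧
      v1 < (L (X p')).length ∧ v1 < (L (X (p' + T'))).length ∧
      v2 ≤ (L (X q')).length ∧ v2 ≤ (L (X (q' + T'))).length ∧
      ¬ (v2 = (L (X q')).length ∧ v2 = (L (X (q' + T'))).length) ∧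
      (∀ j < v1, (L (X p')).getD ((L (X p')).length - 1 - j) m =
        (L (X (p' + T'))).getD ((L (X (p' + T'))).length - 1 - j) m) ∧
      (∀ j < v2, (L (X q')).getD j m = (L (X (q' + T'))).getD j m) ∧
      Y p = (L (X p')).getD ((L (X p')).length - 1 - v1) m ∧
      Y (p + T) = (L (X (p' + T'))).getD ((L (X (p' + T'))).length - 1 - v1) m ∧
      Y q = (L (X q')).getD v2 m ∧
      Y (q + T) = (L (X (q' + T'))).getD v2 m ∧
      (e' = 0 → (L (X (p' + T'))).length = v1 + v2 + 1 + e) ∧
      (e' = 1 → (L (X q')).length + (L (X (p' + T'))).length = v1 + v2 + 1 + e) := by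
  obtain ⟨a, ha1, ha2⟩ := exists_idx hg X p
  obtain ⟨n0, hn1, hn2⟩ := hmark
  have han : a + 1 ≤ n0 := by
    by_contra hc
    have := Mk_le (X := X) hg (show n0 ≤ a by omega)
    omega
  have haq : Mk L X (a + 1) < q := by
    have := Mk_le (X := X) hg han
    omega
  have hstart := img_start hg h
  obtain ⟨b, hb⟩ : ∃ n, Mk L X n = Mk L X (a + 1) + T := by
    apply img_mark hg h
    rw [← hrep _ ha2 haq, hstart]
  have hab : a + 1 < b := by
    apply Mk_lt_of (X := X) hg
    omega
  obtain ⟨k, rfl⟩ : ∃ k, b = a + 1 + k := ⟨b - (a + 1), by omega⟩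
  obtain ⟨f, hf1, hf2⟩ := exists_idx hg X (q - 1)
  have hfa : a + 1 ≤ f := by
    have : a + 1 < f + 1 := by
      apply Mk_lt_of (X := X) hg
      omega
    omega
  -- the main synchronization claim
  have key : ∀ t, a + 1 ≤ t → t ≤ f → Mk L X (t + k) = Mk L X t + T ∧
      (∀ t', a + 1 ≤ t' → t' < t → X t' = X (t' + k)) := by
    intro t hat
    induction t, hat using Nat.le_induction with
    | base =>
      intro _
      exact ⟨hb, fun t' h1 h2 => absurd h2 (by omega)⟩
    | succ t hat ih =>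
      intro htf
      obtain ⟨ih1, ih2⟩ := ih (by omega)
      have hm1 : Mk L X (a + 1) ≤ Mk L X t := by
        have := Mk_le (X := X) hg hat
        omega
      have hm2 : Mk L X (t + 1) ≤ Mk L X f := by
        have := Mk_le (X := X) hg htf
        omega
      have hlt := hg.len (X t)
      have hltk := hg.len (X (t + k))
      have hs1 : Mk L X (t + 1) = Mk L X t + (L (X t)).length := Mk_succ t
      have hs2 : Mk L X (t + k + 1) = Mk L X (t + k) + (L (X (t + k))).length := Mk_succ (t + k)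
      obtain ⟨g, hgm⟩ : ∃ n, Mk L X n = Mk L X (t + 1) + T := by
        apply img_mark hg h
        rw [← hrep _ (by omega) (by omega), hstart]
      have hg1 : t + k < g := by
        apply Mk_lt_of (X := X) hg
        omega
      have hg2 : g = t + k + 1 := by
        by_contra hne
        have hlt2 : Mk L X (t + k + 1) + 2 * (g - (t + k + 1)) ≤ Mk L X g :=
          Mk_le (X := X) hg (by omega)
        have hj := img_ne (L := L) (X := X) (Y := Y) (n := t) (j := Mk L X (t + k + 1) - T)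
          hg h (by omega) (by omega)
        apply hj
        rw [hrep _ (by omega) (by omega), Nat.sub_add_cancel (by omega), hstart]
      subst hg2
      have hlen : (L (X t)).length = (L (X (t + k))).length := by omega
      have hXeq : X t = X (t + k) := by
        apply hg.inj
        apply List.ext_getElem hlen
        intro i hi1 hi2
        have e1 := h t i hi1
        have e2 := h (t + k) i hi2
        have e3 := hrep (Mk L X t + i) (by omega) (by omega)
        rw [List.getD_eq_getElem _ _ hi1] at e1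
        rw [List.getD_eq_getElem _ _ hi2] at e2
        rw [← e1, ← e2, e3, ih1]
        congr 1
        omega
      refine ⟨by rw [show t + 1 + k = t + k + 1 by omega]; exact hgm, ?_⟩
      intro t' h1 h2
      rcases Nat.lt_or_ge t' t with h3 | h3
      · exact ih2 t' h1 h3
      · have : t' = t := by omega
        subst this
        exact hXeq
  obtain ⟨hfk, hXrep⟩ := key f hfa le_rfl
  have hM1 : Mk L X (a + 1) = Mk L X a + (L (X a)).length := Mk_succ a
  have hM2 : Mk L X (a + 1 + k) = Mk L X (a + k) + (L (X (a + k))).length := by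
    rw [show a + 1 + k = a + k + 1 by omega]
    exact Mk_succ (a + k)
  have hM3 : Mk L X (f + 1) = Mk L X f + (L (X f)).length := Mk_succ f
  have hM4 : Mk L X (f + k + 1) = Mk L X (f + k) + (L (X (f + k))).length := Mk_succ (f + k)
  have hl1 := hg.len (X a)
  have hl2 := hg.len (X (a + k))
  have hl3 := hg.len (X f)
  have hl4 := hg.len (X (f + k))
  have hM5 : Mk L X (a + 1) ≤ Mk L X f := by
    have := Mk_le (X := X) hg hfa
    omega
  -- left side
  have hleft : Mk L X (a + k) ≤ p + T := by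
    by_contra hc
    have hj := img_ne (L := L) (X := X) (Y := Y) (n := a) (j := Mk L X (a + k) - T)
      hg h (by omega) (by omega)
    apply hj
    rw [hrep _ (by omega) (by omega), Nat.sub_add_cancel (by omega), hstart]
  -- right side
  have hright : q - Mk L X f ≤ (L (X (f + k))).length := by
    by_contra hc
    have hj := img_ne (L := L) (X := X) (Y := Y) (n := f) (j := Mk L X (f + k + 1) - T)
      hg h (by omega) (by omega)
    apply hj
    rw [hrep _ (by omega) (by omega), Nat.sub_add_cancel (by omega), hstart]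
  have hYp : Y p = (L (X a)).getD ((L (X a)).length - 1 - (Mk L X (a + 1) - 1 - p)) m := by
    rw [← img_le (X := X) (Y := Y) hg h (n := a) (by omega)]
    congr 1
    omega
  have hYpT : Y (p + T) =
      (L (X (a + k))).getD ((L (X (a + k))).length - 1 - (Mk L X (a + 1) - 1 - p)) m := by
    rw [← img_le (X := X) (Y := Y) hg h (n := a + k) (by omega)]
    congr 1
    omega
  have hsuf : ∀ j < Mk L X (a + 1) - 1 - p, (L (X a)).getD ((L (X a)).length - 1 - j) m =
      (L (X (a + k))).getD ((L (X (a + k))).length - 1 - j) m := by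
    intro j hj
    rw [← img_le (X := X) (Y := Y) hg h (n := a) (by omega),
      ← img_le (X := X) (Y := Y) hg h (n := a + k) (by omega),
      hrep _ (by omega) (by omega)]
    congr 1
    omega
  have hpre : ∀ j < q - Mk L X f, (L (X f)).getD j m = (L (X (f + k))).getD j m := by
    intro j hj
    rw [← img_le (X := X) (Y := Y) hg h (n := f) (by omega),
      ← img_le (X := X) (Y := Y) hg h (n := f + k) (by omega),
      hrep _ (by omega) (by omega)]
    congr 1
    omega
  have hkT : k < T := by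
    have := Mk_add (X := X) hg (a + 1) k
    omega
  by_cases hcase : q - Mk L X f = (L (X f)).length ∧ q - Mk L X f = (L (X (f + k))).length
  · obtain ⟨hc1, hc2⟩ := hcase
    have hXf : X f = X (f + k) := by
      apply hg.inj
      apply List.ext_getElem (by omega)
      intro i hi1 hi2
      have := hpre i (by omega)
      rwa [List.getD_eq_getElem _ _ hi1, List.getD_eq_getElem _ _ hi2] at this
    have hfeq : f + 1 = a + k := by
      have h1 : f + 1 < a + 1 + k := by
        apply Mk_lt_of (X := X) hg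
        omega
      by_contra hne
      have := Mk_le (X := X) hg (show f + 1 ≤ a + k by omega)
      omega
    have hfk1 : f + 1 + k = f + k + 1 := by omega
    refine ⟨a, f + 1, k, 0, Mk L X (a + 1) - 1 - p, 0, by omega, by omega, by omega, hkT, ?_,
      by omega, by omega, by omega, by omega, ?_, hsuf, by simp, hYp, hYpT, ?_, ?_, ?_, by simp⟩
    · intro i hi1 hi2
      rcases Nat.lt_or_ge i f with h3 | h3
      · exact hXrep i (by omega) h3
      · have : i = f := by omega
        subst this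
        exact hXf
    · have := hg.len (X (f + 1))
      omega
    · rw [hg.m0, show q = Mk L X (f + 1) by omega, hstart]
    · rw [hg.m0, show q + T = Mk L X (f + k + 1) by omega, hstart]
    · intro _
      have : Mk L X (f + 1) = Mk L X (a + k) := by rw [hfeq]
      omega
  · have hb1 : f < a + 1 + k := by
      apply Mk_lt_of (X := X) hg
      omega
    have hb2 : a + k ≤ f + 1 := by
      by_contra hne
      have := Mk_le (X := X) hg (show f + 1 ≤ a + k by omega)
      omega
    refine ⟨a, f, k, a + k - f, Mk L X (a + 1) - 1 - p, q - Mk L X f, by omega, by omega,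
      by omega, hkT, fun i hi1 hi2 => hXrep i (by omega) hi2,
      by omega, by omega, by omega, hright, hcase, hsuf, hpre, hYp, hYpT, ?_, ?_, ?_, ?_⟩
    · rw [← img_le (X := X) (Y := Y) hg h (n := f) (by omega)]
      congr 1
      omega
    · rw [← img_le (X := X) (Y := Y) hg h (n := f + k) hright]
      congr 1
      omega
    · intro he'
      have hf : f = a + k := by omega
      have : Mk L X f = Mk L X (a + k) := by rw [hf]
      omega
    · intro he'
      have hf : f + 1 = a + k := by omega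
      have : Mk L X (f + 1) = Mk L X (a + k) := by rw [hf]
      omega

end

/-! ### Forbidden near-repetitions -/

/-- `NoBad B Y`: no near-repetition of `Y` has a state in `B`. -/
def NoBad (B : ℕ → Fin 5 → Fin 5 → Fin 5 → Fin 5 → Bool) (Y : ℕ → Fin 5) : Prop :=
  ∀ T p q e, e ≤ 1 → p < q → q + e = p + T →
    (∀ i, p < i → i < q → Y i = Y (i + T)) → B e (Y p) (Y q) (Y (p + T)) (Y (q + T)) = false

/-- The finite check: every state in `BY` comes from a state in `BX`. -/
def Chk (L : Fin 5 → List (Fin 5)) (m : Fin 5)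
    (BY BX : ℕ → Fin 5 → Fin 5 → Fin 5 → Fin 5 → Bool) : Prop :=
  ∀ c1 c1' : Fin 5, ∀ e e' : Fin 2, (e' = 0 → c1' = c1) →
    ∀ v1 v2 : Fin 8, v1.1 < (L c1).length → v2.1 ≤ (L c1').length →
    (if e' = 0 then 0 else (L c1').length) + (L c1).length = v1.1 + v2.1 + 1 + e.1 →
    ∀ c0 : Fin 5, v1.1 < (L c0).length →
    (∀ j < v1.1, (L c0).getD ((L c0).length - 1 - j) m =
        (L c1).getD ((L c1).length - 1 - j) m) →
    ∀ c2 : Fin 5, v2.1 ≤ (L c2).length → ¬ (v2.1 = (L c1').length ∧ v2.1 = (L c2).length) →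
    (∀ j < v2.1, (L c1').getD j m = (L c2).getD j m) →
    BY e.1 ((L c0).getD ((L c0).length - 1 - v1.1) m) ((L c1').getD v2.1 m)
      ((L c1).getD ((L c1).length - 1 - v1.1) m) ((L c2).getD v2.1 m) = true →
    BX e'.1 c0 c1' c1 c2 = true

instance (L : Fin 5 → List (Fin 5)) (m : Fin 5)
    (BY BX : ℕ → Fin 5 → Fin 5 → Fin 5 → Fin 5 → Bool) : Decidable (Chk L m BY BX) := by
  unfold Chk
  infer_instance

section
variable {L : Fin 5 → List (Fin 5)} {m : Fin 5} {X Y : ℕ → Fin 5}
  {BY BX : ℕ → Fin 5 → Fin 5 → Fin 5 → Fin 5 → Bool}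

/-- One step: a bad near-repetition of `Y` whose inner part contains a marker gives a bad
near-repetition of `X` of smaller period. -/
lemma step (hg : Good L m) (hlen : ∀ c, (L c).length ≤ 7) (hchk : Chk L m BY BX)
    (h : IsImg L m X Y) {T p q e : ℕ} (he : e ≤ 1) (hq : q + e = p + T)
    (hrep : ∀ i, p < i → i < q → Y i = Y (i + T))
    (hbad : BY e (Y p) (Y q) (Y (p + T)) (Y (q + T)) = true)
    (hmark : ∃ n, p < Mk L X n ∧ Mk L X n < q) :
    ∃ T' p' q' e', e' ≤ 1 ∧ p' < q' ∧ q' + e' = p' + T' ∧ T' < T ∧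
      (∀ i, p' < i → i < q' → X i = X (i + T')) ∧
      BX e' (X p') (X q') (X (p' + T')) (X (q' + T')) = true := by
  obtain ⟨p', q', T', e', v1, v2, h1, h2, h3, h4, h5, h6, h7, h8, h9, h10, h11, h12, h13, h14,
    h15, h16, h17, h18⟩ := descent hg h he hq hrep hmark
  refine ⟨T', p', q', e', h1, h2, h3, h4, h5, ?_⟩
  have hl1 := hlen (X p')
  have hl2 := hlen (X q')
  have key := hchk (X (p' + T')) (X q') ⟨e, by omega⟩ ⟨e', by omega⟩
    (by
      intro h0
      have : e' = 0 := by simpa using congrArg Fin.val h0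
      rw [show q' = p' + T' by omega])
    ⟨v1, by omega⟩ ⟨v2, by omega⟩ h7 h8
    (by
      have he' : e' = 0 ∨ e' = 1 := by omega
      rcases he' with rfl | rfl
      · simpa using h17 rfl
      · simpa using h18 rfl)
    (X p') h6 h11 (X (q' + T')) h9 h10 h12
  rw [h13, h14, h15, h16] at hbad
  exact key hbad

lemma mark_exists (hg : Good L m) {g : ℕ} (hlen : ∀ c, (L c).length ≤ g) {p q : ℕ}
    (h : p + g < q) : ∃ n, p < Mk L X n ∧ Mk L X n < q := by
  obtain ⟨n, h1, h2⟩ := exists_idx hg X p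
  refine ⟨n + 1, h2, ?_⟩
  have := hlen (X n)
  rw [Mk_succ] at *
  omega

/-- Base check for small periods. -/
def Base (B : ℕ → Fin 5 → Fin 5 → Fin 5 → Fin 5 → Bool) (K : ℕ) (Y : ℕ → Fin 5) : Prop :=
  ∀ T < K, ∀ p q e, e ≤ 1 → p < q → q + e = p + T →
    (∀ i, p < i → i < q → Y i = Y (i + T)) → B e (Y p) (Y q) (Y (p + T)) (Y (q + T)) = false

lemma transfer (hg : Good L m) {g : ℕ} (hlen : ∀ c, (L c).length ≤ g) (hg7 : g ≤ 7)
    (hchk : Chk L m BY BX) (h : IsImg L m X Y) (hX : NoBad BX X) (hb : Base BY (g + 2) Y) :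
    NoBad BY Y := by
  intro T p q e he hpq hq hrep
  by_cases hT : T < g + 2
  · exact hb T hT p q e he hpq hq hrep
  · by_contra hc
    rw [Bool.not_eq_false] at hc
    obtain ⟨T', p', q', e', h1, h2, h3, h4, h5, h6⟩ := step hg (fun c => (hlen c).trans hg7)
      hchk h he hq hrep hc (mark_exists hg hlen (by omega))
    rw [hX T' p' q' e' h1 h2 h3 h5] at h6
    exact Bool.noConfusion h6

lemma noBad_fix (hg : Good L m) {g : ℕ} (hlen : ∀ c, (L c).length ≤ g) (hg7 : g ≤ 7)
    (hchk : Chk L m BX BX) (h : IsImg L m X X) (hb : Base BX (g + 2) X) :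
    NoBad BX X := by
  intro T
  induction T using Nat.strong_induction_on with
  | _ T ih =>
    intro p q e he hpq hq hrep
    by_cases hT : T < g + 2
    · exact hb T hT p q e he hpq hq hrep
    · by_contra hc
      rw [Bool.not_eq_false] at hc
      obtain ⟨T', p', q', e', h1, h2, h3, h4, h5, h6⟩ := step hg (fun c => (hlen c).trans hg7)
        hchk h he hq hrep hc (mark_exists hg hlen (by omega))
      rw [ih T' h4 p' q' e' h1 h2 h3 h5] at h6
      exact Bool.noConfusion h6

end

/-! ### Windows -/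

/-- The window of length `N` of `X` at `p`. -/
def win (X : ℕ → Fin 5) (p N : ℕ) : List (Fin 5) := (List.range N).map fun j => X (p + j)

section
variable {L : Fin 5 → List (Fin 5)} {m : Fin 5} {X Y : ℕ → Fin 5}

lemma win_length (X : ℕ → Fin 5) (p N : ℕ) : (win X p N).length = N := by simp [win]

lemma win_getD (X : ℕ → Fin 5) (p N : ℕ) {j : ℕ} (hj : j < N) (d : Fin 5) :
    (win X p N).getD j d = X (p + j) := by
  rw [List.getD_eq_getElem _ _ (by rw [win_length]; exact hj)]
  simp [win]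

lemma win_succ (X : ℕ → Fin 5) (p N : ℕ) : win X p (N + 1) = win X p N ++ [X (p + N)] := by
  simp [win, List.range_succ]

lemma flat_getD (hg : Good L m) (h : IsImg L m X Y) (n : ℕ) (d : Fin 5) : ∀ k j,
    Mk L X n + j < Mk L X (n + k) →
    ((win X n k).flatMap L).length = Mk L X (n + k) - Mk L X n ∧
    Y (Mk L X n + j) = ((win X n k).flatMap L).getD j d := by
  intro k
  induction k with
  | zero => intro j hj; simp at hj
  | succ k ih =>
    intro j hj
    have hlen : ((win X n k).flatMap L).length = Mk L X (n + k) - Mk L X n := by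
      rcases Nat.eq_zero_or_pos k with h0 | h0
      · subst h0; simp [win]
      · have := Mk_add (X := X) hg n k
        exact (ih 0 (by omega)).1
    have h1 : Mk L X (n + (k + 1)) = Mk L X (n + k) + (L (X (n + k))).length := Mk_succ (n + k)
    have h2 := Mk_add (X := X) hg n k
    rw [win_succ, List.flatMap_append, List.length_append, hlen]
    simp only [List.flatMap_cons, List.flatMap_nil, List.append_nil]
    refine ⟨by omega, ?_⟩
    by_cases hj2 : Mk L X n + j < Mk L X (n + k)
    · rw [List.getD_append _ _ _ _ (by omega)]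
      exact (ih j hj2).2
    · rw [List.getD_append_right _ _ _ _ (by omega), hlen]
      have h3 := h (n + k) (j - (Mk L X (n + k) - Mk L X n)) (by omega)
      rw [show Mk L X n + j = Mk L X (n + k) + (j - (Mk L X (n + k) - Mk L X n)) by omega, h3,
        List.getD_eq_getElem _ _ (by omega), List.getD_eq_getElem _ _ (by omega)]

/-- The window at position `Mk n + i` is read off the image of the window at `n`. -/
lemma win_img (hg : Good L m) (h : IsImg L m X Y) (n i N : ℕ) (hi : i < (L (X n)).length)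
    {k : ℕ} (hk : N + 1 ≤ 2 * k) :
    win Y (Mk L X n + i) N =
      (List.range N).map fun j => ((win X n k).flatMap L).getD (i + j) 0 := by
  unfold win
  apply List.map_congr_left
  intro j hj
  rw [List.mem_range] at hj
  rw [Nat.add_assoc]
  refine (flat_getD hg h n 0 k (i + j) ?_).2
  obtain ⟨k, rfl⟩ : ∃ k', k = k' + 1 := ⟨k - 1, by omega⟩
  have h1 := Mk_add (X := X) hg (n + 1) k
  rw [show n + 1 + k = n + (k + 1) by omega, Mk_succ] at h1
  omega

end

/-! ### Existence of images and of the fixed point -/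

/-- The image of the infinite word `X`. -/
def Phi (L : Fin 5 → List (Fin 5)) (m : Fin 5) (X : ℕ → Fin 5) : ℕ → Fin 5 := fun N =>
  (L (X (Nat.findGreatest (fun n => Mk L X n ≤ N) N))).getD
    (N - Mk L X (Nat.findGreatest (fun n => Mk L X n ≤ N) N)) m

section
variable {L : Fin 5 → List (Fin 5)} {m : Fin 5} {X Y : ℕ → Fin 5}

lemma idx_eq (hg : Good L m) (n i : ℕ) (hi : i < (L (X n)).length) :
    Nat.findGreatest (fun k => Mk L X k ≤ Mk L X n + i) (Mk L X n + i) = n := by
  rw [Nat.findGreatest_eq_iff]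
  refine ⟨?_, fun _ => Nat.le_add_right _ _, ?_⟩
  · have := Mk_le (X := X) hg (Nat.zero_le n)
    omega
  · intro k hk _
    have := Mk_le (X := X) hg (show n + 1 ≤ k by omega)
    rw [Mk_succ] at this
    omega

lemma Phi_img (hg : Good L m) (X : ℕ → Fin 5) : IsImg L m X (Phi L m X) := by
  intro n i hi
  unfold Phi
  rw [idx_eq hg n i hi, Nat.add_sub_cancel_left]

lemma Mk_congr {X X' : ℕ → Fin 5} (n : ℕ) (h : ∀ j < n, X j = X' j) :
    Mk L X n = Mk L X' n := by
  induction n with
  | zero => rfl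
  | succ n ih =>
    rw [Mk_succ, Mk_succ, ih (fun j hj => h j (by omega)), h n (by omega)]

lemma Phi_congr (hg : Good L m) {X X' : ℕ → Fin 5} (l : ℕ) (h : ∀ j < l, X j = X' j) (N : ℕ)
    (hN : N < Mk L X l) : Phi L m X N = Phi L m X' N := by
  obtain ⟨n, h1, h2⟩ := exists_idx hg X N
  have hnl : n < l := by
    apply Mk_lt_of (X := X) hg
    omega
  have hM : Mk L X n = Mk L X' n := Mk_congr n (fun j hj => h j (by omega))
  rw [Mk_succ] at h2
  have e1 := Phi_img hg X n (N - Mk L X n) (by omega)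
  have e2 := Phi_img hg X' n (N - Mk L X' n) (by rw [← h n hnl]; omega)
  rw [Nat.add_sub_cancel' h1] at e1
  rw [Nat.add_sub_cancel' (by omega)] at e2
  rw [e1, e2, h n hnl, hM]

end

/-! ### The concrete words -/

/-- The substitution on five letters. -/
def tau : Fin 5 → List (Fin 5) :=
  ![[2, 3], [2, 4, 0, 3], [2, 3, 0, 1, 4, 0, 3], [2, 4, 0, 1], [2, 3, 0, 1]]

/-- The intermediate morphism. -/
def pi : Fin 5 → List (Fin 5) :=
  ![[1, 3], [1, 2, 3], [1, 3, 0, 2, 3], [1, 2, 0], [1, 3, 0]]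

/-- The last morphism (the image of `4` is never used). -/
def rho : Fin 5 → List (Fin 5) :=
  ![[2, 0], [2, 1, 0], [2, 1], [2, 0, 1], [2, 4, 3]]

lemma good_tau : Good tau 2 := by
  refine ⟨by decide, by decide, ?_, by decide⟩
  have h : ∀ c : Fin 5, ∀ i : Fin 8, 0 < i.1 → i.1 < (tau c).length → (tau c).getD i.1 2 ≠ 2 := by
    decide
  have h7 : ∀ c, (tau c).length ≤ 7 := by decide
  intro c i h1 h2
  exact h c ⟨i, by have := h7 c; omega⟩ h1 h2

lemma good_pi : Good pi 1 := by
  refine ⟨by decide, by decide, ?_, by decide⟩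
  have h : ∀ c : Fin 5, ∀ i : Fin 8, 0 < i.1 → i.1 < (pi c).length → (pi c).getD i.1 1 ≠ 1 := by
    decide
  have h7 : ∀ c, (pi c).length ≤ 5 := by decide
  intro c i h1 h2
  exact h c ⟨i, by have := h7 c; omega⟩ h1 h2

lemma good_rho : Good rho 2 := by
  refine ⟨by decide, by decide, ?_, by decide⟩
  have h : ∀ c : Fin 5, ∀ i : Fin 8, 0 < i.1 → i.1 < (rho c).length → (rho c).getD i.1 2 ≠ 2 := by
    decide
  have h7 : ∀ c, (rho c).length ≤ 3 := by decide
  intro c i h1 h2
  exact h c ⟨i, by have := h7 c; omega⟩ h1 h2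

/-- The approximations of the fixed point. -/
def Zs : ℕ → ℕ → Fin 5
  | 0 => fun _ => 2
  | n + 1 => Phi tau 2 (Zs n)

lemma Zs_zero_zero : ∀ n, Zs n 0 = 2 := by
  intro n
  induction n with
  | zero => rfl
  | succ n ih =>
    have := Phi_img good_tau (Zs n) 0 0 (by have := good_tau.len (Zs n 0); omega)
    rw [good_tau.m0] at this
    exact this

lemma Zs_agree : ∀ n j, j ≤ n → Zs (n + 1) j = Zs n j := by
  intro n
  induction n with
  | zero =>
    intro j hj
    have : j = 0 := by omega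
    subst this
    rw [Zs_zero_zero, Zs_zero_zero]
  | succ n ih =>
    intro j hj
    show Phi tau 2 (Zs (n + 1)) j = Phi tau 2 (Zs n) j
    apply Phi_congr good_tau (n + 1) (fun i hi => ih i (by omega))
    have := Mk_le (X := Zs (n + 1)) good_tau (Nat.zero_le (n + 1))
    omega

/-- The fixed point of `tau`. -/
def XX (n : ℕ) : Fin 5 := Zs n n

lemma Zs_eq (n m : ℕ) (h : n ≤ m) : Zs m n = XX n := by
  induction m, h using Nat.le_induction with
  | base => rfl
  | succ m h ih => rw [Zs_agree m n h, ih]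

lemma XX_img : IsImg tau 2 XX XX := by
  intro n i hi
  set N := Mk tau XX n + i with hN
  have h1 : Mk tau XX n = Mk tau (Zs (N + n)) n :=
    Mk_congr n (fun j hj => (Zs_eq j (N + n) (by omega)).symm)
  have h2 : Zs (N + n) n = XX n := Zs_eq n (N + n) (by omega)
  rw [← Zs_eq N (N + n + 1) (by omega)]
  show Phi tau 2 (Zs (N + n)) N = _
  have h3 := Phi_img good_tau (Zs (N + n)) n i (by rw [h2]; exact hi)
  rw [← h1, ← hN, h2] at h3
  exact h3

/-- The middle word. -/
def SS : ℕ → Fin 5 := Phi pi 1 XX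

/-- The word of Player 1, as a word over `Fin 5`. -/
def YY : ℕ → Fin 5 := Phi rho 2 SS

lemma SS_img : IsImg pi 1 XX SS := Phi_img good_pi XX

lemma YY_img : IsImg rho 2 SS YY := Phi_img good_rho SS

/-- The factors of length 17 of the fixed point. -/
def W : List (List (Fin 5)) :=
  [[0,1,2,3,0,1,4,0,3,2,3,0,1,2,3,2,4],
   [0,1,2,3,0,1,4,0,3,2,4,0,1,2,3,2,4],
   [0,1,2,3,2,4,0,1,2,3,0,1,4,0,3,2,3],
   [0,1,2,3,2,4,0,1,2,3,0,1,4,0,3,2,4],
   [0,1,2,3,2,4,0,3,2,3,0,1,2,3,2,4,0],
   [0,1,2,3,2,4,0,3,2,3,0,1,4,0,3,2,4],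
   [0,1,4,0,3,2,3,0,1,2,3,2,4,0,1,2,3],
   [0,1,4,0,3,2,3,0,1,2,3,2,4,0,3,2,3],
   [0,1,4,0,3,2,4,0,1,2,3,0,1,4,0,3,2],
   [0,1,4,0,3,2,4,0,1,2,3,2,4,0,3,2,3],
   [0,3,2,3,0,1,2,3,2,4,0,1,2,3,0,1,4],
   [0,3,2,3,0,1,2,3,2,4,0,3,2,3,0,1,4],
   [0,3,2,3,0,1,4,0,3,2,4,0,1,2,3,0,1],
   [0,3,2,3,0,1,4,0,3,2,4,0,1,2,3,2,4],
   [0,3,2,4,0,1,2,3,0,1,4,0,3,2,3,0,1],
   [0,3,2,4,0,1,2,3,2,4,0,3,2,3,0,1,2],
   [0,3,2,4,0,1,2,3,2,4,0,3,2,3,0,1,4],
   [1,2,3,0,1,4,0,3,2,3,0,1,2,3,2,4,0],
   [1,2,3,0,1,4,0,3,2,4,0,1,2,3,2,4,0],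
   [1,2,3,2,4,0,1,2,3,0,1,4,0,3,2,3,0],
   [1,2,3,2,4,0,1,2,3,0,1,4,0,3,2,4,0],
   [1,2,3,2,4,0,3,2,3,0,1,2,3,2,4,0,1],
   [1,2,3,2,4,0,3,2,3,0,1,4,0,3,2,4,0],
   [1,4,0,3,2,3,0,1,2,3,2,4,0,1,2,3,0],
   [1,4,0,3,2,3,0,1,2,3,2,4,0,3,2,3,0],
   [1,4,0,3,2,4,0,1,2,3,0,1,4,0,3,2,3],
   [1,4,0,3,2,4,0,1,2,3,2,4,0,3,2,3,0],
   [2,3,0,1,2,3,2,4,0,1,2,3,0,1,4,0,3],
   [2,3,0,1,2,3,2,4,0,3,2,3,0,1,4,0,3],
   [2,3,0,1,4,0,3,2,3,0,1,2,3,2,4,0,1],
   [2,3,0,1,4,0,3,2,3,0,1,2,3,2,4,0,3],
   [2,3,0,1,4,0,3,2,4,0,1,2,3,0,1,4,0],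
   [2,3,0,1,4,0,3,2,4,0,1,2,3,2,4,0,3],
   [2,3,2,4,0,1,2,3,0,1,4,0,3,2,3,0,1],
   [2,3,2,4,0,1,2,3,0,1,4,0,3,2,4,0,1],
   [2,3,2,4,0,3,2,3,0,1,2,3,2,4,0,1,2],
   [2,3,2,4,0,3,2,3,0,1,4,0,3,2,4,0,1],
   [2,4,0,1,2,3,0,1,4,0,3,2,3,0,1,2,3],
   [2,4,0,1,2,3,0,1,4,0,3,2,4,0,1,2,3],
   [2,4,0,1,2,3,2,4,0,3,2,3,0,1,2,3,2],
   [2,4,0,1,2,3,2,4,0,3,2,3,0,1,4,0,3],
   [2,4,0,3,2,3,0,1,2,3,2,4,0,1,2,3,0],
   [2,4,0,3,2,3,0,1,4,0,3,2,4,0,1,2,3],
   [3,0,1,2,3,2,4,0,1,2,3,0,1,4,0,3,2],
   [3,0,1,2,3,2,4,0,3,2,3,0,1,4,0,3,2],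
   [3,0,1,4,0,3,2,3,0,1,2,3,2,4,0,1,2],
   [3,0,1,4,0,3,2,3,0,1,2,3,2,4,0,3,2],
   [3,0,1,4,0,3,2,4,0,1,2,3,0,1,4,0,3],
   [3,0,1,4,0,3,2,4,0,1,2,3,2,4,0,3,2],
   [3,2,3,0,1,2,3,2,4,0,1,2,3,0,1,4,0],
   [3,2,3,0,1,2,3,2,4,0,3,2,3,0,1,4,0],
   [3,2,3,0,1,4,0,3,2,4,0,1,2,3,0,1,4],
   [3,2,3,0,1,4,0,3,2,4,0,1,2,3,2,4,0],
   [3,2,4,0,1,2,3,0,1,4,0,3,2,3,0,1,2],
   [3,2,4,0,1,2,3,0,1,4,0,3,2,4,0,1,2],
   [3,2,4,0,1,2,3,2,4,0,3,2,3,0,1,2,3],
   [3,2,4,0,1,2,3,2,4,0,3,2,3,0,1,4,0],
   [3,2,4,0,3,2,3,0,1,2,3,2,4,0,1,2,3],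
   [3,2,4,0,3,2,3,0,1,4,0,3,2,4,0,1,2],
   [4,0,1,2,3,0,1,4,0,3,2,3,0,1,2,3,2],
   [4,0,1,2,3,0,1,4,0,3,2,4,0,1,2,3,2],
   [4,0,1,2,3,2,4,0,3,2,3,0,1,2,3,2,4],
   [4,0,1,2,3,2,4,0,3,2,3,0,1,4,0,3,2],
   [4,0,3,2,3,0,1,2,3,2,4,0,1,2,3,0,1],
   [4,0,3,2,3,0,1,2,3,2,4,0,3,2,3,0,1],
   [4,0,3,2,3,0,1,4,0,3,2,4,0,1,2,3,0],
   [4,0,3,2,3,0,1,4,0,3,2,4,0,1,2,3,2],
   [4,0,3,2,4,0,1,2,3,0,1,4,0,3,2,3,0],
   [4,0,3,2,4,0,1,2,3,2,4,0,3,2,3,0,1]]

/-- The window of length `N` at offset `i` of the image of `w`. -/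
def nextWin (L : Fin 5 → List (Fin 5)) (w : List (Fin 5)) (k i N : ℕ) : List (Fin 5) :=
  (List.range N).map fun j => ((w.take k).flatMap L).getD (i + j) 0

lemma win_take (X : ℕ → Fin 5) (p : ℕ) {k N : ℕ} (h : k ≤ N) :
    (win X p N).take k = win X p k := by
  unfold win
  rw [← List.map_take, List.take_range, min_eq_left h]

lemma W_closed : ∀ w ∈ W, ∀ i : Fin 8, i.1 < (tau (w.getD 0 0)).length →
    nextWin tau w 9 i.1 17 ∈ W := by
  decide +kernel

lemma XX_zero : XX 0 = 2 := rfl

lemma win0 : win XX 0 17 ∈ W := by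
  have h7 : win XX 0 7 = [2, 3, 0, 1, 4, 0, 3] := by
    have h1 : win XX 0 7 = (List.range 7).map fun j => (tau 2).getD j 2 := by
      unfold win
      apply List.map_congr_left
      intro j hj
      rw [List.mem_range] at hj
      have := XX_img 0 j (by rw [XX_zero]; exact hj)
      rw [XX_zero] at this
      exact this
    rw [h1]
    decide
  have h13 := win_img good_tau XX_img 0 0 13 (by rw [XX_zero]; decide) (k := 7) (by omega)
  rw [h7] at h13
  have h17 := win_img good_tau XX_img 0 0 17 (by rw [XX_zero]; decide) (k := 13) (by omega)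
  simp only [Mk, Nat.add_zero] at h13 h17
  rw [h17, h13]
  decide +kernel

lemma winX (p : ℕ) : win XX p 17 ∈ W := by
  induction p using Nat.strong_induction_on with
  | _ p ih =>
    rcases Nat.eq_zero_or_pos p with rfl | hp
    · exact win0
    · obtain ⟨n, h1, h2⟩ := exists_idx good_tau XX p
      have hn : n < p := by
        have := Mk_le (X := XX) good_tau (Nat.zero_le n)
        omega
      rw [Mk_succ] at h2
      have h3 := win_img good_tau XX_img n (p - Mk tau XX n) 17 (by omega) (k := 9) (by omega)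
      rw [Nat.add_sub_cancel' h1, ← win_take XX n (show 9 ≤ 17 by norm_num)] at h3
      rw [h3]
      have h7 : ∀ c, (tau c).length ≤ 7 := by decide
      have h8 := h7 (XX n)
      refine W_closed _ (ih n hn) ⟨p - Mk tau XX n, by omega⟩ ?_
      rw [win_getD XX n 17 (by norm_num)]
      show p - Mk tau XX n < _
      rw [Nat.add_zero]
      omega

/-! ### The finite checks -/

/-- Forbidden states for the fixed point (a bit mask). -/
def BX (e : ℕ) (a b c d : Fin 5) : Bool :=
  Nat.testBit 2423285588099312598178304115166062341143846442031664852606531264189455408512648519845994528733349630331469678095204290481627399604557282366723325503193837351989458449927686323061201821938988167445897012896527543839551330332252847518591656826265273290844327841969694382254135275190003994121091151033487474459311743812436412622581506105099273857739740549547541311319731318292511 (e * 625 + a.1 * 125 + b.1 * 25 + c.1 * 5 + d.1)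

/-- Forbidden states for the middle word (a bit mask). -/
def BS (e : ℕ) (a b c d : Fin 5) : Bool :=
  Nat.testBit 1076154966024113236899679408945131719749143380750450376008521224245476306972659555830427239888641229041955019147487247875537357159264743759150452495316728601876544254500407304505759031922597868213746730646619395617307588444961668207917119627737394069660696902524579982554313482468286238360233815794668290891151766557526025843759155746446791494594193453817528351 (e * 625 + a.1 * 125 + b.1 * 25 + c.1 * 5 + d.1)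

/-- Forbidden states for the last word: these are exactly the squares. -/
def BY (e : ℕ) (a _b c _d : Fin 5) : Bool := decide (e = 0 ∧ a = c)

lemma chk_tau : Chk tau 2 BX BX := by decide +kernel

lemma chk_pi : Chk pi 1 BS BX := by decide +kernel

lemma chk_rho : Chk rho 2 BY BS := by decide +kernel

/-- The base check on a window. -/
def baseW (B : ℕ → Fin 5 → Fin 5 → Fin 5 → Fin 5 → Bool) (K : ℕ) (w : List (Fin 5)) : Prop :=
  ∀ T : Fin K, ∀ e : Fin 2, e.1 < T.1 →
    (∀ i < T.1 - e.1, 0 < i → w.getD i 0 = w.getD (i + T.1) 0) →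
    B e.1 (w.getD 0 0) (w.getD (T.1 - e.1) 0) (w.getD T.1 0) (w.getD (2 * T.1 - e.1) 0) = false

instance (B : ℕ → Fin 5 → Fin 5 → Fin 5 → Fin 5 → Bool) (K : ℕ) (w : List (Fin 5)) :
    Decidable (baseW B K w) := by
  unfold baseW
  infer_instance

lemma base_of_win {B : ℕ → Fin 5 → Fin 5 → Fin 5 → Fin 5 → Bool} {Y : ℕ → Fin 5} {K N : ℕ}
    (hN : 2 * K ≤ N + 1) (h : ∀ p, baseW B K (win Y p N)) : Base B K Y := by
  intro T hT p q e he hpq hq hrep
  have h1 := h p ⟨T, hT⟩ ⟨e, by omega⟩ (by show e < T; omega)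
  simp only at h1
  have hw : ∀ j, j < N → (win Y p N).getD j 0 = Y (p + j) := fun j hj => win_getD Y p N hj 0
  rw [hw 0 (by omega), hw (T - e) (by omega), hw T (by omega), hw (2 * T - e) (by omega)] at h1
  rw [show q = p + (T - e) by omega, show p + (T - e) + T = p + (2 * T - e) by omega]
  apply h1
  intro i hi hi0
  rw [hw i (by omega), hw (i + T) (by omega)]
  have := hrep (p + i) (by omega) (by omega)
  rwa [Nat.add_assoc] at this

lemma baseX : Base BX 9 XX := by
  apply base_of_win (N := 17) (by norm_num)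
  intro p
  have h : ∀ w ∈ W, baseW BX 9 w := by decide +kernel
  exact h _ (winX p)

/-- Every window of length 13 of the middle word comes from a window of the fixed point. -/
lemma winS (p : ℕ) : ∃ w ∈ W, ∃ i : Fin 8, i.1 < (pi (w.getD 0 0)).length ∧
    win SS p 13 = nextWin pi w 7 i.1 13 := by
  obtain ⟨n, h1, h2⟩ := exists_idx good_pi XX p
  rw [Mk_succ] at h2
  have h3 := win_img good_pi SS_img n (p - Mk pi XX n) 13 (by omega) (k := 7) (by omega)
  rw [Nat.add_sub_cancel' h1, ← win_take XX n (show 7 ≤ 17 by norm_num)] at h3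
  have h7 : ∀ c, (pi c).length ≤ 5 := by decide
  have h8 := h7 (XX n)
  refine ⟨_, winX n, ⟨p - Mk pi XX n, by omega⟩, ?_, h3⟩
  rw [win_getD XX n 17 (by norm_num)]
  show p - Mk pi XX n < _
  rw [Nat.add_zero]
  omega

lemma baseS : Base BS 7 SS := by
  apply base_of_win (N := 13) (by norm_num)
  intro p
  obtain ⟨w, hw, i, hi, h⟩ := winS p
  rw [h]
  have hc : ∀ w ∈ W, ∀ i : Fin 8, i.1 < (pi (w.getD 0 0)).length →
      baseW BS 7 (nextWin pi w 7 i.1 13) := by decide +kernel
  exact hc w hw i hi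

/-- Every window of length 9 of the last word comes from a window of the middle word. -/
lemma winY (p : ℕ) : ∃ w ∈ W, ∃ i : Fin 8, i.1 < (pi (w.getD 0 0)).length ∧
    ∃ i' : Fin 8, i'.1 < (rho ((nextWin pi w 7 i.1 13).getD 0 0)).length ∧
    win YY p 9 = nextWin rho (nextWin pi w 7 i.1 13) 5 i'.1 9 := by
  obtain ⟨n, h1, h2⟩ := exists_idx good_rho SS p
  rw [Mk_succ] at h2
  have h3 := win_img good_rho YY_img n (p - Mk rho SS n) 9 (by omega) (k := 5) (by omega)
  rw [Nat.add_sub_cancel' h1, ← win_take SS n (show 5 ≤ 13 by norm_num)] at h3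
  obtain ⟨w, hw, i, hi, h⟩ := winS n
  have h7 : ∀ c, (rho c).length ≤ 3 := by decide
  have h8 := h7 (SS n)
  refine ⟨w, hw, i, hi, ⟨p - Mk rho SS n, by omega⟩, ?_, ?_⟩
  · rw [← h, win_getD SS n 13 (by norm_num)]
    show p - Mk rho SS n < _
    rw [Nat.add_zero]
    omega
  · rw [← h]
    exact h3

lemma baseY : Base BY 5 YY := by
  apply base_of_win (N := 9) (by norm_num)
  intro p
  obtain ⟨w, hw, i, hi, i', hi', h⟩ := winY p
  rw [h]
  have hc : ∀ w ∈ W, ∀ i : Fin 8, i.1 < (pi (w.getD 0 0)).length →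
      ∀ i' : Fin 8, i'.1 < (rho ((nextWin pi w 7 i.1 13).getD 0 0)).length →
      baseW BY 5 (nextWin rho (nextWin pi w 7 i.1 13) 5 i'.1 9) := by decide +kernel
  exact hc w hw i hi i' hi'

lemma YY_small (p : ℕ) : (YY p).1 < 3 ∧ (YY p = 2 ∨ YY (p + 1) = 2 ∨ YY (p + 2) = 2) := by
  obtain ⟨w, hw, i, hi, i', hi', h⟩ := winY p
  have h0 := win_getD YY p 9 (show 0 < 9 by norm_num) 0
  have h1 := win_getD YY p 9 (show 1 < 9 by norm_num) 0
  have h2 := win_getD YY p 9 (show 2 < 9 by norm_num) 0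
  rw [Nat.add_zero] at h0
  rw [← h0, ← h1, ← h2, h]
  have hc : ∀ w ∈ W, ∀ i : Fin 8, i.1 < (pi (w.getD 0 0)).length →
      ∀ i' : Fin 8, i'.1 < (rho ((nextWin pi w 7 i.1 13).getD 0 0)).length →
      ((nextWin rho (nextWin pi w 7 i.1 13) 5 i'.1 9).getD 0 0).1 < 3 ∧
      ((nextWin rho (nextWin pi w 7 i.1 13) 5 i'.1 9).getD 0 0 = 2 ∨
       (nextWin rho (nextWin pi w 7 i.1 13) 5 i'.1 9).getD 1 0 = 2 ∨
       (nextWin rho (nextWin pi w 7 i.1 13) 5 i'.1 9).getD 2 0 = 2) := by decide +kernel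
  exact hc w hw i hi i' hi'

lemma noBadX : NoBad BX XX :=
  noBad_fix good_tau (g := 7) (by decide) le_rfl chk_tau XX_img baseX

lemma noBadS : NoBad BS SS :=
  transfer good_pi (g := 5) (by decide) (by norm_num) chk_pi SS_img noBadX baseS

lemma noBadY : NoBad BY YY :=
  transfer good_rho (g := 3) (by decide) (by norm_num) chk_rho YY_img noBadS baseY

/-- The word `YY` is square-free. -/
lemma YY_squarefree (p T : ℕ) (hT : 0 < T) : ∃ i < T, YY (p + i) ≠ YY (p + T + i) := by
  by_contra hc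
  push Not at hc
  have h := noBadY T p (p + T) 0 (by norm_num) (by omega) (by omega) (by
    intro i h1 h2
    have := hc (i - p) (by omega)
    rw [show p + (i - p) = i by omega, show p + T + (i - p) = i + T by omega] at this
    exact this)
  have h0 := hc 0 hT
  rw [Nat.add_zero, Nat.add_zero] at h0
  simp [BY, h0] at h

/-! ### The game -/

/-- `s` (indexed from `0`) contains a square `xx` of a block `x` of length `r` at position `k`. -/
def IsSquareAt (s : ℕ → Fin 3) (k r : ℕ) : Prop := ∀ i < r, s (k + i) = s (k + r + i)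

/-- The sequence produced when Player 1 follows the strategy `σ` (a function of the list of all
previous moves) and Player 2 makes the moves `b 0, b 1, …`: `σ` gives the entries with even
index (Player 1 moves first), and `b` those with odd index. -/
def IsPlay (σ : List (Fin 3) → Fin 3) (b : ℕ → Fin 3) (s : ℕ → Fin 3) : Prop :=
  (∀ n, s (2 * n) = σ ((List.range (2 * n)).map s)) ∧ (∀ n, s (2 * n + 1) = b n)

/-- Player 1's word. -/
def yy (n : ℕ) : Fin 3 := ⟨(YY n).1, (YY_small n).1⟩

lemma yy_ne {a b : ℕ} (h : YY a ≠ YY b) : yy a ≠ yy b := by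
  intro hc
  apply h
  have := congrArg Fin.val hc
  exact Fin.ext this

lemma yy_eq_two {n : ℕ} (h : YY n = 2) : yy n = 2 := by
  apply Fin.ext
  have h1 : (yy n).1 = (YY n).1 := rfl
  rw [h1, h]
  rfl

lemma yy_two (n : ℕ) : yy n = 2 ∨ yy (n + 1) = 2 ∨ yy (n + 2) = 2 := by
  rcases (YY_small n).2 with h | h | h
  · exact Or.inl (yy_eq_two h)
  · exact Or.inr (Or.inl (yy_eq_two h))
  · exact Or.inr (Or.inr (yy_eq_two h))

/-- If the moves of Player 1 are the letters of `yy` and Player 2 never plays `2`, no square of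
a nonsingleton block appears. -/
lemma main (s : ℕ → Fin 3) (h1 : ∀ n, s (2 * n) = yy n) (h2 : ∀ n, s (2 * n + 1) ≠ 2)
    (k r : ℕ) (hr : 2 ≤ r) : ¬ IsSquareAt s k r := by
  intro hsq
  rcases Nat.even_or_odd' r with ⟨h, rfl | rfl⟩
  · -- even block length
    obtain ⟨i, hi, hne⟩ := YY_squarefree ((k + 1) / 2) h (by omega)
    apply yy_ne hne
    have := hsq (2 * ((k + 1) / 2 + i) - k) (by omega)
    rw [show k + (2 * ((k + 1) / 2 + i) - k) = 2 * ((k + 1) / 2 + i) by omega,
      show k + 2 * h + (2 * ((k + 1) / 2 + i) - k) = 2 * ((k + 1) / 2 + h + i) by omega,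
      h1, h1] at this
    exact this
  · -- odd block length
    have key : ∀ n, k ≤ 2 * n → 2 * n < k + 2 * (2 * h + 1) → yy n ≠ 2 := by
      intro n hn1 hn2
      rw [← h1]
      rcases Nat.lt_or_ge (2 * n) (k + (2 * h + 1)) with h3 | h3
      · have := hsq (2 * n - k) (by omega)
        rw [show k + (2 * n - k) = 2 * n by omega,
          show k + (2 * h + 1) + (2 * n - k) = 2 * (n + h) + 1 by omega] at this
        rw [this]
        exact h2 _
      · have := hsq (2 * n - (k + (2 * h + 1))) (by omega)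
        rw [show k + (2 * n - (k + (2 * h + 1))) = 2 * (n - h - 1) + 1 by omega,
          show k + (2 * h + 1) + (2 * n - (k + (2 * h + 1))) = 2 * n by omega] at this
        rw [← this]
        exact h2 _
    rcases yy_two ((k + 1) / 2) with h3 | h3 | h3
    · exact key _ (by omega) (by omega) h3
    · exact key _ (by omega) (by omega) h3
    · exact key _ (by omega) (by omega) h3

/-- **Player 1 wins the biased game.** There is a strategy `σ` of Player 1 on `{0,1,2}` such
that, whatever moves `b n ∈ {0,1}` Player 2 makes, the infinite sequence produced contains no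
square of a nonsingleton block. Moreover the moves of Player 1 can be fixed in advance: there is
a sequence `a` over `{0,1,2}` such that no sequence `a 0, b 0, a 1, b 1, …` with all
`b n ∈ {0,1}` contains a square of a nonsingleton block. -/
theorem result :
    (∃ σ : List (Fin 3) → Fin 3, ∀ b : ℕ → Fin 3, (∀ n, b n = 0 ∨ b n = 1) →
      (∃ s, IsPlay σ b s) ∧
      ∀ s, IsPlay σ b s → ∀ k r, 2 ≤ r → ¬ IsSquareAt s k r) ∧
    ∃ a : ℕ → Fin 3, ∀ b : ℕ → Fin 3, (∀ n, b n = 0 ∨ b n = 1) →
      ∀ s : ℕ → Fin 3, (∀ n, s (2 * n) = a n) → (∀ n, s (2 * n + 1) = b n) →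
        ∀ k r, 2 ≤ r → ¬ IsSquareAt s k r := by
  have hb2 : ∀ b : ℕ → Fin 3, (∀ n, b n = 0 ∨ b n = 1) → ∀ n, b n ≠ 2 := by
    intro b hb n
    rcases hb n with h | h <;> rw [h] <;> decide
  refine ⟨⟨fun l => yy (l.length / 2), fun b hb => ⟨?_, ?_⟩⟩, yy, fun b hb s h1 h2 => ?_⟩
  · refine ⟨fun n => if n % 2 = 0 then yy (n / 2) else b (n / 2), fun n => ?_, fun n => ?_⟩
    · simp
    · simp only
      rw [if_neg (by omega), show (2 * n + 1) / 2 = n by omega]
  · intro s hs
    refine main s (fun n => ?_) (fun n => ?_)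
    · have := hs.1 n
      simpa using this
    · rw [hs.2 n]
      exact hb2 b hb n
  · exact main s h1 (fun n => by rw [h2 n]; exact hb2 b hb n)

end Pool.Agent.Results.MP_fa571f_co.BiasedGame
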